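import Mathlib

set_option autoImplicit false

namespace Pool.Agent.Results.MP_4bbd08_co.BinaryCounterexample

/-- The four nucleotides. -/
inductive Base
  | A | C | G | U
  deriving DecidableEq

instance : Fintype Base :=
  ⟨{Base.A, Base.C, Base.G, Base.U}, fun x => by cases x <;> decide⟩

/-- Two letters may be paired when, as a set, they are `{G, C}` or `{A, U}`. -/
def WatsonCrick (x y : Base) : Prop :=
  ({x, y} : Finset Base) = {Base.G, Base.C} ∨ ({x, y} : Finset Base) = {Base.A, Base.U}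

instance (x y : Base) : Decidable (WatsonCrick x y) :=
  inferInstanceAs (Decidable (({x, y} : Finset Base) = {Base.G, Base.C} ∨
    ({x, y} : Finset Base) = {Base.A, Base.U}))

/-- A secondary structure on `n` positions: a set of arcs `(i, j)` with `i < j`, no two of which
share an endpoint and no two of which cross. -/
def IsSecondary {n : ℕ} (R : Finset (Fin n × Fin n)) : Prop :=
  (∀ a ∈ R, a.1 < a.2) ∧
  (∀ a ∈ R, ∀ b ∈ R, a ≠ b → a.1 ≠ b.1 ∧ a.1 ≠ b.2 ∧ a.2 ≠ b.1 ∧ a.2 ≠ b.2) ∧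
  (∀ a ∈ R, ∀ b ∈ R, ¬ (a.1 < b.1 ∧ b.1 < a.2 ∧ a.2 < b.2))

instance {n : ℕ} (R : Finset (Fin n × Fin n)) : Decidable (IsSecondary R) :=
  @instDecidableAnd _ _ inferInstance (@instDecidableAnd _ _ inferInstance inferInstance)

/-- A position on no arc. -/
def Unpaired {n : ℕ} (R : Finset (Fin n × Fin n)) (i : Fin n) : Prop :=
  ∀ a ∈ R, a.1 ≠ i ∧ a.2 ≠ i

instance {n : ℕ} (R : Finset (Fin n × Fin n)) (i : Fin n) : Decidable (Unpaired R i) :=
  inferInstanceAs (Decidable (∀ a ∈ R, a.1 ≠ i ∧ a.2 ≠ i))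

/-- The vertices of the tree `T(R)`: the arcs of `R` (two-dot vertices) and the unpaired
positions `i`, represented as `(i, i)` (one-dot vertices). -/
def treeVertices {n : ℕ} (R : Finset (Fin n × Fin n)) : Finset (Fin n × Fin n) :=
  R ∪ (Finset.univ.filter fun i => Unpaired R i).image fun i => (i, i)

/-- `a` strictly encloses `x`. -/
def Encloses {n : ℕ} (a x : Fin n × Fin n) : Prop := a.1 < x.1 ∧ x.2 < a.2

instance {n : ℕ} (a x : Fin n × Fin n) : Decidable (Encloses a x) :=
  inferInstanceAs (Decidable (a.1 < x.1 ∧ x.2 < a.2))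

/-- The arc `a` is the parent of `x` in `T(R)`: it is the innermost arc strictly enclosing `x`. -/
def IsParent {n : ℕ} (R : Finset (Fin n × Fin n)) (a x : Fin n × Fin n) : Prop :=
  a ∈ R ∧ Encloses a x ∧ ∀ b ∈ R, Encloses b x → b = a ∨ Encloses b a

instance {n : ℕ} (R : Finset (Fin n × Fin n)) (a x : Fin n × Fin n) :
    Decidable (IsParent R a x) :=
  inferInstanceAs (Decidable (a ∈ R ∧ Encloses a x ∧ ∀ b ∈ R, Encloses b x → b = a ∨ Encloses b a))

/-- Every vertex of `T(R)` has at most two children. -/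
def IsBinary {n : ℕ} (R : Finset (Fin n × Fin n)) : Prop :=
  ∀ v ∈ treeVertices R, ((treeVertices R).filter fun x => IsParent R v x).card ≤ 2

instance {n : ℕ} (R : Finset (Fin n × Fin n)) : Decidable (IsBinary R) :=
  inferInstanceAs (Decidable
    (∀ v ∈ treeVertices R, ((treeVertices R).filter fun x => IsParent R v x).card ≤ 2))

/-- The first and the last position are joined by an arc of `R`. -/
def HasRootArc {n : ℕ} (R : Finset (Fin n × Fin n)) : Prop :=
  ∃ a ∈ R, a.1.val = 0 ∧ a.2.val + 1 = n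

/-- An arc set for the sequence `S`. -/
def IsArcSet {n : ℕ} (S : Fin n → Base) (R : Finset (Fin n × Fin n)) : Prop :=
  IsSecondary R ∧ ∀ a ∈ R, WatsonCrick (S a.1) (S a.2)

/-- An arc set for `S` of maximum size. -/
def IsMaxArcSet {n : ℕ} (S : Fin n → Base) (R : Finset (Fin n × Fin n)) : Prop :=
  IsArcSet S R ∧ ∀ Q : Finset (Fin n × Fin n), IsArcSet S Q → Q.card ≤ R.card

/-- `R` is designable: some sequence `S` has `R` as its unique arc set of maximum size. -/
def Designable {n : ℕ} (R : Finset (Fin n × Fin n)) : Prop :=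
  ∃ S : Fin n → Base, IsMaxArcSet S R ∧ ∀ Q : Finset (Fin n × Fin n), IsMaxArcSet S Q → Q = R

/-! ### The structure -/

/-- The structure `(((.)(((..)(..)).)).)` on 21 positions (0-indexed), as a list of arcs. -/
def arcs : List (Fin 21 × Fin 21) :=
  [(0, 20), (1, 18), (2, 4), (5, 17), (6, 15), (7, 10), (11, 14)]

/-- The structure as a finite set of arcs. -/
def R₀ : Finset (Fin 21 × Fin 21) := arcs.toFinset

/-- Alternative structures: every sequence compatible with `R₀` is compatible with one of them.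
Each entry lists first the arcs outside `arcs`, and then the whole alternative structure. -/
def alts : List (List (Fin 21 × Fin 21) × List (Fin 21 × Fin 21)) :=
  [([(1, 19)], [(0, 20), (1, 19), (2, 4), (5, 17), (6, 15), (7, 10), (11, 14)]),
   ([(18, 19)], [(0, 20), (2, 4), (5, 17), (6, 15), (7, 10), (11, 14), (18, 19)]),
   ([(1, 5), (17, 18)], [(0, 20), (1, 5), (2, 4), (6, 15), (7, 10), (11, 14), (17, 18)]),
   ([(5, 16)], [(0, 20), (1, 18), (2, 4), (5, 16), (6, 15), (7, 10), (11, 14)]),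
   ([(1, 16), (17, 19)], [(0, 20), (1, 16), (2, 4), (6, 15), (7, 10), (11, 14), (17, 19)]),
   ([(16, 17)], [(0, 20), (1, 18), (2, 4), (6, 15), (7, 10), (11, 14), (16, 17)]),
   ([(5, 19), (16, 18)], [(0, 20), (2, 4), (5, 19), (6, 15), (7, 10), (11, 14), (16, 18)]),
   ([(6, 16)], [(0, 20), (1, 18), (2, 4), (5, 17), (6, 16), (7, 10), (11, 14)]),
   ([(15, 16)], [(0, 20), (1, 18), (2, 4), (5, 17), (7, 10), (11, 14), (15, 16)]),
   ([(5, 6), (15, 17)], [(0, 20), (1, 18), (2, 4), (5, 6), (7, 10), (11, 14), (15, 17)]),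
   ([(2, 17), (4, 5)], [(0, 20), (1, 18), (2, 17), (4, 5), (6, 15), (7, 10), (11, 14)]),
   ([(1, 2), (4, 18)], [(0, 20), (1, 2), (4, 18), (5, 17), (6, 15), (7, 10), (11, 14)]),
   ([(2, 3)], [(0, 20), (1, 18), (2, 3), (5, 17), (6, 15), (7, 10), (11, 14)]),
   ([(1, 3), (4, 19)], [(0, 20), (1, 3), (4, 19), (5, 17), (6, 15), (7, 10), (11, 14)]),
   ([(2, 19), (3, 18)], [(0, 20), (2, 19), (3, 18), (5, 17), (6, 15), (7, 10), (11, 14)]),
   ([(3, 17), (4, 16)], [(0, 20), (1, 18), (3, 17), (4, 16), (6, 15), (7, 10), (11, 14)]),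
   ([(3, 4)], [(0, 20), (1, 18), (3, 4), (5, 17), (6, 15), (7, 10), (11, 14)]),
   ([(2, 16), (3, 5)], [(0, 20), (1, 18), (2, 16), (3, 5), (6, 15), (7, 10), (11, 14)]),
   ([(6, 7), (10, 15)], [(0, 20), (1, 18), (2, 4), (5, 17), (6, 7), (10, 15), (11, 14)]),
   ([(7, 8)], [(0, 20), (1, 18), (2, 4), (5, 17), (6, 15), (7, 8), (11, 14)]),
   ([(6, 8), (10, 16)], [(0, 20), (1, 18), (2, 4), (5, 17), (6, 8), (10, 16), (11, 14)]),
   ([(8, 10)], [(0, 20), (1, 18), (2, 4), (5, 17), (6, 15), (8, 10), (11, 14)]),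
   ([(7, 9)], [(0, 20), (1, 18), (2, 4), (5, 17), (6, 15), (7, 9), (11, 14)]),
   ([(8, 9)], [(0, 20), (1, 18), (2, 4), (5, 17), (6, 15), (7, 10), (8, 9), (11, 14)]),
   ([(9, 10)], [(0, 20), (1, 18), (2, 4), (5, 17), (6, 15), (9, 10), (11, 14)]),
   ([(7, 16), (9, 15)], [(0, 20), (1, 18), (2, 4), (5, 17), (7, 16), (9, 15), (11, 14)]),
   ([(3, 8), (4, 7), (9, 17), (10, 16)], [(0, 20), (1, 18), (3, 8), (4, 7), (9, 17), (10, 16), (11, 14)]),
   ([(1, 7), (8, 19), (9, 17), (10, 16)], [(0, 20), (1, 7), (2, 4), (8, 19), (9, 17), (10, 16), (11, 14)]),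
   ([(2, 8), (3, 7), (9, 17), (10, 16)], [(0, 20), (1, 18), (2, 8), (3, 7), (9, 17), (10, 16), (11, 14)]),
   ([(7, 19), (8, 18), (9, 17), (10, 16)], [(0, 20), (2, 4), (7, 19), (8, 18), (9, 17), (10, 16), (11, 14)]),
   ([(7, 14), (10, 11)], [(0, 20), (1, 18), (2, 4), (5, 17), (6, 15), (7, 14), (10, 11)]),
   ([(6, 11), (14, 15)], [(0, 20), (1, 18), (2, 4), (5, 17), (6, 11), (7, 10), (14, 15)]),
   ([(11, 12)], [(0, 20), (1, 18), (2, 4), (5, 17), (6, 15), (7, 10), (11, 12)]),
   ([(7, 12), (9, 11)], [(0, 20), (1, 18), (2, 4), (5, 17), (6, 15), (7, 12), (9, 11)]),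
   ([(9, 14), (10, 12)], [(0, 20), (1, 18), (2, 4), (5, 17), (6, 15), (9, 14), (10, 12)]),
   ([(12, 14)], [(0, 20), (1, 18), (2, 4), (5, 17), (6, 15), (7, 10), (12, 14)]),
   ([(11, 13)], [(0, 20), (1, 18), (2, 4), (5, 17), (6, 15), (7, 10), (11, 13)]),
   ([(8, 13), (9, 12)], [(0, 20), (1, 18), (2, 4), (5, 17), (6, 15), (8, 13), (9, 12)]),
   ([(12, 13)], [(0, 20), (1, 18), (2, 4), (5, 17), (6, 15), (7, 10), (11, 14), (12, 13)]),
   ([(11, 16), (13, 15)], [(0, 20), (1, 18), (2, 4), (5, 17), (7, 10), (11, 16), (13, 15)]),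
   ([(13, 14)], [(0, 20), (1, 18), (2, 4), (5, 17), (6, 15), (7, 10), (13, 14)]),
   ([(5, 13), (6, 12), (15, 19), (16, 18)], [(0, 20), (2, 4), (5, 13), (6, 12), (7, 10), (15, 19), (16, 18)]),
   ([(1, 10), (5, 9), (6, 8), (11, 19), (13, 16)], [(0, 20), (1, 10), (2, 4), (5, 9), (6, 8), (11, 19), (13, 16)]),
   ([(9, 16), (10, 12), (13, 15)], [(0, 20), (1, 18), (2, 4), (5, 17), (9, 16), (10, 12), (13, 15)]),
   ([(1, 13), (5, 9), (6, 8), (15, 19), (16, 18)], [(0, 20), (1, 13), (2, 4), (5, 9), (6, 8), (15, 19), (16, 18)]),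
   ([(3, 16), (4, 15), (5, 13), (6, 12)], [(0, 20), (1, 18), (3, 16), (4, 15), (5, 13), (6, 12), (7, 10)]),
   ([(2, 12), (4, 10), (5, 9), (6, 8), (13, 16)], [(0, 20), (1, 18), (2, 12), (4, 10), (5, 9), (6, 8), (13, 16)]),
   ([(1, 15), (5, 13), (6, 12), (16, 19)], [(0, 20), (1, 15), (2, 4), (5, 13), (6, 12), (7, 10), (16, 19)]),
   ([(2, 16), (3, 14), (4, 13), (5, 9), (6, 8)], [(0, 20), (1, 18), (2, 16), (3, 14), (4, 13), (5, 9), (6, 8)]),
   ([(2, 16), (3, 15), (5, 13), (6, 12)], [(0, 20), (1, 18), (2, 16), (3, 15), (5, 13), (6, 12), (7, 10)])]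

lemma secondary_of_list {n : ℕ} (l : List (Fin n × Fin n)) (h1 : ∀ a ∈ l, a.1 < a.2)
    (h2 : l.Pairwise fun a b => a.1 < b.1 ∧ (a.2 < b.1 ∨ b.2 < a.2)) :
    IsSecondary l.toFinset ∧ l.toFinset.card = l.length := by
  have h3 : ∀ a ∈ l, ∀ b ∈ l, a = b ∨ (a.1 < b.1 ∧ (a.2 < b.1 ∨ b.2 < a.2)) ∨
      (b.1 < a.1 ∧ (b.2 < a.1 ∨ a.2 < b.2)) := by
    have hsymm : Std.Symm (fun a b : Fin n × Fin n => a = b ∨
        (a.1 < b.1 ∧ (a.2 < b.1 ∨ b.2 < a.2)) ∨ (b.1 < a.1 ∧ (b.2 < a.1 ∨ a.2 < b.2))) := by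
      refine ⟨fun x y hxy => ?_⟩
      rcases hxy with h | h | h
      · exact Or.inl h.symm
      · exact Or.inr (Or.inr h)
      · exact Or.inr (Or.inl h)
    have h4 := List.Pairwise.forall_of_forall
      (R := fun a b : Fin n × Fin n => a = b ∨ (a.1 < b.1 ∧ (a.2 < b.1 ∨ b.2 < a.2)) ∨
        (b.1 < a.1 ∧ (b.2 < a.1 ∨ a.2 < b.2))) (l := l) (fun x _ => Or.inl rfl)
        (h2.imp fun h => Or.inr (Or.inl h))
    exact fun a ha b hb => h4 ha hb
  refine ⟨⟨fun a ha => h1 a (List.mem_toFinset.1 ha), fun a ha b hb hab => ?_,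
    fun a ha b hb => ?_⟩, ?_⟩
  · rw [List.mem_toFinset] at ha hb
    have ha1 := h1 a ha
    have hb1 := h1 b hb
    have := h3 a ha b hb
    simp only [Fin.lt_def, ne_eq, Fin.ext_iff] at *
    rcases this with h | h | h
    · exact absurd h hab
    · omega
    · omega
  · rw [List.mem_toFinset] at ha hb
    have ha1 := h1 a ha
    have hb1 := h1 b hb
    have := h3 a ha b hb
    simp only [Fin.lt_def] at *
    rcases this with h | h | h
    · subst h; omega
    · omega
    · omega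
  · refine List.toFinset_card_of_nodup (h2.imp fun {a b} h hab => ?_)
    rw [hab] at h
    exact absurd h.1 (lt_irrefl _)

lemma alts_chk1 : ∀ p ∈ alts, (∀ a ∈ p.2, a.1 < a.2) ∧
    (p.2.Pairwise fun a b => a.1 < b.1 ∧ (a.2 < b.1 ∨ b.2 < a.2)) ∧ 7 ≤ p.2.length := by
  decide +kernel

lemma alts_chk2 : ∀ p ∈ alts, ∃ a ∈ p.2, a ∉ arcs := by
  decide +kernel

lemma alts_chk3 : ∀ p ∈ alts, ∀ a ∈ p.2, a ∈ p.1 ∨ a ∈ arcs := by
  decide +kernel

lemma arcs_chk : (∀ a ∈ arcs, a.1 < a.2) ∧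
    (arcs.Pairwise fun a b => a.1 < b.1 ∧ (a.2 < b.1 ∨ b.2 < a.2)) ∧ arcs.length = 7 := by
  decide +kernel

lemma alts_ok (p : List (Fin 21 × Fin 21) × List (Fin 21 × Fin 21)) (hp : p ∈ alts) :
    IsSecondary p.2.toFinset ∧ R₀.card ≤ p.2.toFinset.card ∧ p.2.toFinset ≠ R₀ := by
  obtain ⟨h1, h2, h3⟩ := alts_chk1 p hp
  obtain ⟨a, ha, ha'⟩ := alts_chk2 p hp
  obtain ⟨h4, h5⟩ := secondary_of_list p.2 h1 h2
  obtain ⟨k1, k2, k3⟩ := arcs_chk
  obtain ⟨_, k5⟩ := secondary_of_list arcs k1 k2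
  refine ⟨h4, ?_, fun he => ha' ?_⟩
  · rw [h5, R₀, k5, k3]
    exact h3
  · rw [← List.mem_toFinset] at ha ⊢
    rw [he] at ha
    exact ha

/-- Boolean version of `WatsonCrick`. -/
def P : Base → Base → Bool
  | Base.A, Base.U => true
  | Base.U, Base.A => true
  | Base.C, Base.G => true
  | Base.G, Base.C => true
  | _, _ => false

/-- The complementary letter. -/
def cp : Base → Base
  | Base.A => Base.U
  | Base.U => Base.A
  | Base.C => Base.G
  | Base.G => Base.C

lemma P_iff (x y : Base) : P x y = true ↔ WatsonCrick x y := by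
  revert x y; decide

lemma eq_c {x y : Base} (h : WatsonCrick x y) : y = cp x := by
  revert x y; decide

/-- Conjunction over the four letters. -/
def all4 (f : Base → Bool) : Bool := f Base.A && f Base.C && f Base.G && f Base.U

lemma all4_spec {f : Base → Bool} (h : all4 f = true) (x : Base) : f x = true := by
  simp only [all4, Bool.and_eq_true] at h
  cases x
  · exact h.1.1.1
  · exact h.1.1.2
  · exact h.1.2
  · exact h.2

/-- The finite check: a search over the letters on the fourteen vertices of the tree. -/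
def check : Bool :=
  all4 fun r => 
    all4 fun x0 => 
      all4 fun b => 
        (P b x0) || (P (cp b) x0) ||
        all4 fun t => 
          (P b t && (P (cp t) (cp b))) ||
          all4 fun x1 => 
            (P t x1) || (P b x1 && (P (cp t) x0)) || (P x1 (cp t)) || (P t x0 && (P x1 (cp b))) ||
            all4 fun w => 
              (P w x1) || (P (cp w) x1) || (P t w && (P (cp w) (cp t))) ||
              all4 fun a => 
                (P a (cp t) && (P (cp a) t)) || (P b a && (P (cp a) (cp b))) ||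
                all4 fun xa => 
                  (P a xa) || (P b xa && (P (cp a) x0)) || (P a x0 && (P xa (cp b))) || (P xa (cp t) && (P (cp a) x1)) || (P xa (cp a)) || (P a x1 && (P xa t)) ||
                  all4 fun l1 => 
                    (P w l1 && (P (cp l1) (cp w))) ||
                    all4 fun y1 => 
                      (P l1 y1) || (P w y1 && (P (cp l1) x1)) || (P y1 (cp l1)) ||
                      all4 fun y2 => 
                        (P l1 y2) || (P y1 y2) || (P y2 (cp l1)) || (P l1 x1 && (P y2 (cp w))) || (P xa y1 && (P (cp a) l1 && (P y2 (cp t) && (P (cp l1) x1)))) || (P b l1 && (P y1 x0 && (P y2 (cp t) && (P (cp l1) x1)))) || (P a y1 && (P xa l1 && (P y2 (cp t) && (P (cp l1) x1)))) || (P l1 x0 && (P y1 (cp b) && (P y2 (cp t) && (P (cp l1) x1)))) ||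
                        all4 fun l2 => 
                          (P l1 (cp l2) && (P (cp l1) l2)) || (P w l2 && (P (cp l2) (cp w))) ||
                          all4 fun z1 => 
                            (P l2 z1) || (P l1 z1 && (P y2 l2)) || (P y2 (cp l2) && (P (cp l1) z1)) || (P z1 (cp l2)) ||
                            all4 fun z2 => 
                              (P l2 z2) || (P y1 z2 && (P y2 z1)) || (P z1 z2) || (P l2 x1 && (P z2 (cp w))) || (P z2 (cp l2)) || (P t z2 && (P w z1 && (P (cp w) x0 && (P x1 (cp b))))) || (P b (cp l1) && (P t y2 && (P w y1 && (P l2 x0 && (P z2 x1))))) || (P y2 x1 && (P (cp l1) z1 && (P z2 (cp w)))) || (P b z2 && (P t y2 && (P w y1 && (P (cp w) x0 && (P x1 (cp b)))))) || (P xa x1 && (P (cp a) (cp w) && (P t z2 && (P w z1)))) || (P a z1 && (P (cp a) (cp l1) && (P t y2 && (P w y1 && (P z2 x1))))) || (P b (cp w) && (P t z2 && (P w z1 && (P x1 x0)))) || (P a x1 && (P xa (cp l2) && (P (cp a) z2 && (P t y2 && (P w y1))))) || (P a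 x1 && (P xa (cp w) && (P t z2 && (P w z1))))

lemma check_true : check = true := by
  decide +kernel

lemma no_assignment (r x0 b t x1 w a xa l1 y1 y2 l2 z1 z2 : Base)
    (h1 : (P b x0) = false)
    (h2 : (P (cp b) x0) = false)
    (h3 : (P b t && (P (cp t) (cp b))) = false)
    (h4 : (P t x1) = false)
    (h5 : (P b x1 && (P (cp t) x0)) = false)
    (h6 : (P x1 (cp t)) = false)
    (h7 : (P t x0 && (P x1 (cp b))) = false)
    (h8 : (P w x1) = false)
    (h9 : (P (cp w) x1) = false)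
    (h10 : (P t w && (P (cp w) (cp t))) = false)
    (h11 : (P a (cp t) && (P (cp a) t)) = false)
    (h12 : (P b a && (P (cp a) (cp b))) = false)
    (h13 : (P a xa) = false)
    (h14 : (P b xa && (P (cp a) x0)) = false)
    (h15 : (P a x0 && (P xa (cp b))) = false)
    (h16 : (P xa (cp t) && (P (cp a) x1)) = false)
    (h17 : (P xa (cp a)) = false)
    (h18 : (P a x1 && (P xa t)) = false)
    (h19 : (P w l1 && (P (cp l1) (cp w))) = false)
    (h20 : (P l1 y1) = false)
    (h21 : (P w y1 && (P (cp l1) x1)) = false)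
    (h22 : (P y1 (cp l1)) = false)
    (h23 : (P l1 y2) = false)
    (h24 : (P y1 y2) = false)
    (h25 : (P y2 (cp l1)) = false)
    (h26 : (P l1 x1 && (P y2 (cp w))) = false)
    (h27 : (P xa y1 && (P (cp a) l1 && (P y2 (cp t) && (P (cp l1) x1)))) = false)
    (h28 : (P b l1 && (P y1 x0 && (P y2 (cp t) && (P (cp l1) x1)))) = false)
    (h29 : (P a y1 && (P xa l1 && (P y2 (cp t) && (P (cp l1) x1)))) = false)
    (h30 : (P l1 x0 && (P y1 (cp b) && (P y2 (cp t) && (P (cp l1) x1)))) = false)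
    (h31 : (P l1 (cp l2) && (P (cp l1) l2)) = false)
    (h32 : (P w l2 && (P (cp l2) (cp w))) = false)
    (h33 : (P l2 z1) = false)
    (h34 : (P l1 z1 && (P y2 l2)) = false)
    (h35 : (P y2 (cp l2) && (P (cp l1) z1)) = false)
    (h36 : (P z1 (cp l2)) = false)
    (h37 : (P l2 z2) = false)
    (h38 : (P y1 z2 && (P y2 z1)) = false)
    (h39 : (P z1 z2) = false)
    (h40 : (P l2 x1 && (P z2 (cp w))) = false)
    (h41 : (P z2 (cp l2)) = false)
    (h42 : (P t z2 && (P w z1 && (P (cp w) x0 && (P x1 (cp b))))) = false)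
    (h43 : (P b (cp l1) && (P t y2 && (P w y1 && (P l2 x0 && (P z2 x1))))) = false)
    (h44 : (P y2 x1 && (P (cp l1) z1 && (P z2 (cp w)))) = false)
    (h45 : (P b z2 && (P t y2 && (P w y1 && (P (cp w) x0 && (P x1 (cp b)))))) = false)
    (h46 : (P xa x1 && (P (cp a) (cp w) && (P t z2 && (P w z1)))) = false)
    (h47 : (P a z1 && (P (cp a) (cp l1) && (P t y2 && (P w y1 && (P z2 x1))))) = false)
    (h48 : (P b (cp w) && (P t z2 && (P w z1 && (P x1 x0)))) = false)
    (h49 : (P a x1 && (P xa (cp l2) && (P (cp a) z2 && (P t y2 && (P w y1))))) = false)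
    (h50 : (P a x1 && (P xa (cp w) && (P t z2 && (P w z1)))) = false) :
    False := by
  have h0 := check_true
  unfold check at h0
  replace h0 := all4_spec h0 r
  replace h0 := all4_spec h0 x0
  replace h0 := all4_spec h0 b
  simp only [h1, h2, Bool.false_or, Bool.or_false] at h0
  replace h0 := all4_spec h0 t
  simp only [h3, Bool.false_or, Bool.or_false] at h0
  replace h0 := all4_spec h0 x1
  simp only [h4, h5, h6, h7, Bool.false_or, Bool.or_false] at h0
  replace h0 := all4_spec h0 w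
  simp only [h8, h9, h10, Bool.false_or, Bool.or_false] at h0
  replace h0 := all4_spec h0 a
  simp only [h11, h12, Bool.false_or, Bool.or_false] at h0
  replace h0 := all4_spec h0 xa
  simp only [h13, h14, h15, h16, h17, h18, Bool.false_or, Bool.or_false] at h0
  replace h0 := all4_spec h0 l1
  simp only [h19, Bool.false_or, Bool.or_false] at h0
  replace h0 := all4_spec h0 y1
  simp only [h20, h21, h22, Bool.false_or, Bool.or_false] at h0
  replace h0 := all4_spec h0 y2
  simp only [h23, h24, h25, h26, h27, h28, h29, h30, Bool.false_or, Bool.or_false] at h0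
  replace h0 := all4_spec h0 l2
  simp only [h31, h32, Bool.false_or, Bool.or_false] at h0
  replace h0 := all4_spec h0 z1
  simp only [h33, h34, h35, h36, Bool.false_or, Bool.or_false] at h0
  replace h0 := all4_spec h0 z2
  simp only [h37, h38, h39, h40, h41, h42, h43, h44, h45, h46, h47, h48, h49, h50, Bool.false_or, Bool.or_false] at h0
  exact absurd h0 Bool.false_ne_true

lemma not_designable : ¬ Designable R₀ := by
  rintro ⟨S, ⟨⟨hsec, hwc⟩, hmax⟩, huniq⟩
  have key : ∀ p ∈ alts, (p.1.all fun a => P (S a.1) (S a.2)) = false := by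
    intro p hp
    by_contra hcon
    rw [Bool.not_eq_false, List.all_eq_true] at hcon
    obtain ⟨h1, h2, h3⟩ := alts_ok p hp
    have h4 := alts_chk3 p hp
    have harc : IsArcSet S p.2.toFinset := by
      refine ⟨h1, fun a ha => ?_⟩
      rw [List.mem_toFinset] at ha
      rcases h4 a ha with h | h
      · exact (P_iff _ _).1 (hcon a h)
      · exact hwc a (List.mem_toFinset.2 h)
    exact h3 (huniq _ ⟨harc, fun Q hQ => (hmax Q hQ).trans h2⟩)
  have hR : ∀ a ∈ arcs, S a.2 = cp (S a.1) := fun a ha => eq_c (hwc a (List.mem_toFinset.2 ha))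
  have e20 : S 20 = cp (S 0) := hR (0, 20) (by decide)
  have e18 : S 18 = cp (S 1) := hR (1, 18) (by decide)
  have e4 : S 4 = cp (S 2) := hR (2, 4) (by decide)
  have e17 : S 17 = cp (S 5) := hR (5, 17) (by decide)
  have e15 : S 15 = cp (S 6) := hR (6, 15) (by decide)
  have e10 : S 10 = cp (S 7) := hR (7, 10) (by decide)
  have e14 : S 14 = cp (S 11) := hR (11, 14) (by decide)
  simp only [alts, List.forall_mem_cons, List.all_cons, List.all_nil, Bool.and_true, e20, e18, e4, e17, e15, e10, e14] at key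
  obtain ⟨g1, g2, g3, g4, g5, g6, g7, g8, g9, g10, g11, g12, g13, g14, g15, g16, g17, g18, g19, g20, g21, g22, g23, g24, g25, g26, g27, g28, g29, g30, g31, g32, g33, g34, g35, g36, g37, g38, g39, g40, g41, g42, g43, g44, g45, g46, g47, g48, g49, g50, -⟩ := key
  exact no_assignment (S 0) (S 19) (S 1) (S 5) (S 16) (S 6) (S 2) (S 3) (S 7) (S 8) (S 9) (S 11) (S 12) (S 13)
    g1 g2 g3 g4 g5 g6 g7 g8 g9 g10 g11 g12 g13 g14 g15 g16 g17 g18 g19 g20 g21 g22 g23 g24 g25 g26 g27 g28 g29 g30 g31 g32 g33 g34 g35 g36 g37 g38 g39 g40 g41 g42 g43 g44 g45 g46 g47 g48 g49 g50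

/-- There is a secondary structure containing the arc joining the first and the last position,
whose tree is binary and unsaturated, and which is not designable. -/
theorem result : ∃ (n : ℕ) (R : Finset (Fin n × Fin n)),
    IsSecondary R ∧ HasRootArc R ∧ IsBinary R ∧ (∃ i, Unpaired R i) ∧ ¬ Designable R :=
  ⟨21, R₀, by decide +kernel, ⟨(0, 20), by decide +kernel, rfl, rfl⟩, by decide +kernel,
    ⟨3, by decide +kernel⟩, not_designable⟩

end Pool.Agent.Results.MP_4bbd08_co.BinaryCounterexample
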